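import Pool.Agent.R460.GH.Appl

/-!
# Knjzek partitions in all windows, in the residue classes of EVERY modulus `q ≤ x ^ (2 / 3 - ρ)`: asymptotic formulas

For every modulus `q ≤ x ^ (2 / 3 - ρ)`, without any exceptional moduli, and every residue class `a` modulo `q`
with `gcd(a, q) ≤ (log x)^T`, all but at most `x / (q (log x)^A)` of the even integers `m ≤ x`, `m ≡ a (mod q)`,
have in every interval `(u, v]` with `√m ≤ u`, `v ≤ m / 2` and `v - u ≥ m / (log m)^W` the number of primes `p`, with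
`m - p` a prime different from `p`, which Hardy and Littlewood predict, up to the factor `1 ± ε`. In particular there
is such a prime with `√m < p ≤ √m + m / (log m)^W`, `p < m / 2`.

Definition used (in `Pool.Agent.H560R3.GB`): `sing m = 2 C₂ ∏_{p ∣ m, p > 2} (p - 1) / (p - 2)`, the singular series,
where `C₂ = ∏_{p > 2} (1 - 1 / (p - 1) ^ 2)` is the twin prime constant.

Proof: project `R460/GH` (see the description in `Results/MP_bae66e_nt/AsymptoticEveryModulus`).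
-/

set_option autoImplicit false

namespace Pool.Agent.Results.MP_73b532_nt.AsymptoticEveryModulus

open Finset
open Pool.Agent.H560R3.GB (sing)

open Classical in
/-- The number of the primes `p` with `u < p ≤ v` such that `m - p` is a prime different from `p`. -/
noncomputable def partitions (m : ℕ) (u v : ℝ) : ℕ :=
  ((range (m + 1)).filter (fun p : ℕ => p.Prime ∧ (m - p).Prime ∧ p ≠ m - p ∧ u < p ∧ (p : ℝ) ≤ v)).card

/-- (1) For every interval `(u, v]` with `√m ≤ u`, `v ≤ m / 2` and `v - u ≥ m / (log m)^W` the number of primes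
`p` in it, such that `m - p` is a prime different from `p`, agrees with `sing m (v - u) / (log m)²` up to a relative
error of at most `ε`; (2) there is a prime `p` with `√m < p < m / 2`, `m - p` prime and
`p ≤ √m + m / (log m)^W`. -/
def Holds (ε : ℝ) (W m : ℕ) : Prop :=
  (∀ u v : ℝ, √(m : ℝ) ≤ u → v ≤ (m : ℝ) / 2 → (m : ℝ) / Real.log m ^ W ≤ v - u →
    |(partitions m u v : ℝ) - sing m * (v - u) / Real.log m ^ 2| ≤
      ε * (sing m * (v - u) / Real.log m ^ 2)) ∧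
  ∃ p : ℕ, p.Prime ∧ (m - p).Prime ∧ √(m : ℝ) < p ∧ (p : ℝ) < (m : ℝ) / 2 ∧
    (p : ℝ) ≤ √(m : ℝ) + (m : ℝ) / Real.log m ^ W

/-- The even integers `0 < m ≤ x` with `m ≡ a (mod q)` for which `Holds ε W m` is false. -/
def exceptional (ε : ℝ) (W : ℕ) (x : ℝ) (q : ℕ) (a : ℤ) : Set ℕ :=
  {m : ℕ | 0 < m ∧ (m : ℝ) ≤ x ∧ 2 ∣ m ∧ (m : ℤ) ≡ a [ZMOD q] ∧ ¬ Holds ε W m}

lemma holds_of (ε : ℝ) (hε : 0 < ε) (W : ℕ) (hW : 1 ≤ W) : ∃ n₀ : ℕ, ∀ m : ℕ, n₀ ≤ m → 2 ∣ m →
    Pool.Agent.W93.PG.WinP (min ε (1 / 2) / 2) (W + 1) m → Holds ε W m := by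
  obtain ⟨n₁, h1⟩ := Pool.Agent.R460.GH.distHolds_of ε hε W hW
  obtain ⟨x₁, hx₁⟩ := Filter.eventually_atTop.1
    (Pool.Agent.R460.GS.real_log 1 (s := 1 / 2) (by norm_num) 21)
  refine ⟨n₁ + ⌈x₁⌉₊ + 100, fun m hm h2 hw => ?_⟩
  obtain ⟨k1, p, r, hp, hr, hpr, hsum, hlo, hhi⟩ := h1 m (by omega) h2 hw
  obtain ⟨hL, -⟩ := hx₁ m ((Nat.le_ceil x₁).trans (by exact_mod_cast (by omega : ⌈x₁⌉₊ ≤ m)))
  have hm0 : (100 : ℝ) ≤ m := by exact_mod_cast (by omega : 100 ≤ m)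
  have hs0 : 0 < √(m : ℝ) := Real.sqrt_pos.2 (by linarith)
  have hss : √(m : ℝ) * √(m : ℝ) = m := Real.mul_self_sqrt (by linarith)
  have hs10 : 10 ≤ √(m : ℝ) := by
    rw [show (10 : ℝ) = √(100 : ℝ) by
      rw [show (100 : ℝ) = 10 ^ 2 by norm_num, Real.sqrt_sq (by norm_num)]]
    exact Real.sqrt_le_sqrt hm0
  refine ⟨fun u v hu hv huv => k1 u v hu (by linarith) huv, ?_⟩
  have hpm : m - p = r := by omega
  refine ⟨p, hp, by rw [hpm]; exact hr, hlo, ?_, hhi⟩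
  have hsm : √(m : ℝ) ≤ m / 10 := by
    rw [le_div_iff₀ (by norm_num)]
    nlinarith
  have hWlen : (m : ℝ) / Real.log m ^ W ≤ m / 21 := by
    apply div_le_div_of_nonneg_left (by linarith) (by norm_num)
    calc (21 : ℝ) ≤ Real.log m := hL
      _ = Real.log m ^ 1 := (pow_one _).symm
      _ ≤ Real.log m ^ W := pow_le_pow_right₀ (by linarith) hW
  linarith

/-- For all `ε, ρ > 0`, `W ≥ 1`, `A` and `T` and all sufficiently large real `x`: for EVERY integer
`1 ≤ q ≤ x ^ (2 / 3 - ρ)` and every integer `a` with `gcd(a, q) ≤ (log x)^T`, all but at most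
`x / (q (log x)^A)` of the even integers `0 < m ≤ x`, `m ≡ a (mod q)`, have the property `Holds ε W m`. -/
theorem result (ε ρ : ℝ) (hε : 0 < ε) (hρ : 0 < ρ) (W : ℕ) (hW : 1 ≤ W) (A T : ℕ) :
    ∃ x₀ : ℝ, ∀ x : ℝ, x₀ ≤ x → ∀ q : ℕ, 1 ≤ q → (q : ℝ) ≤ x ^ (2 / 3 - ρ) →
      ∀ a : ℤ, (Int.gcd a q : ℝ) ≤ Real.log x ^ T →
        (exceptional ε W x q a).Finite ∧ ((exceptional ε W x q a).ncard : ℝ) ≤ x / (q * Real.log x ^ A) :=
  Pool.Agent.R460.GH.class_asymp (Holds ε W) (min ε (1 / 2) / 2) (by positivity) (W + 1)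
    (holds_of ε hε W hW) ρ hρ A T

end Pool.Agent.Results.MP_73b532_nt.AsymptoticEveryModulus
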