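import Pool.Agent.R460.GS.Conv

/-!
# Knjzek partitions in all windows, in the residue classes of EVERY modulus `q ≤ x ^ (7 / 10 - ρ)`

For every modulus `q ≤ x ^ (7 / 10 - ρ)`, without exceptional moduli, and every residue class `a` modulo `q`
with `gcd(a, q) ≤ (log x)^T`, all but at most `x / (q (log x)^A)` of the even integers `m ≤ x`,
`m ≡ a (mod q)`, satisfy the assertion of the problem (with `m = 2 n`) in the following stronger form: EVERY
interval `(u, v]` with `√m ≤ u`, `v ≤ m / 2` and `v - u ≥ m / (log m)^W` contains at least one twenty-first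
of the predicted number of primes `p` with `m - p` prime.

Definition used from `Pool.Agent.H560R3.GB` (starting files): `sing m`: the singular series
`2 C₂ ∏_{p ∣ m, p > 2} (p - 1) / (p - 2)`, where `C₂ = ∏_{p > 2} (1 - 1 / (p - 1) ^ 2)`.

Proof: project GS (helper460, helper461, helper462, helper453): an upper bound sieve function `G ≥ Λ` with mean
value less than `2` which is well distributed in the classes of every modulus, and
`Λ(m) Λ(n) ≥ Λ(m) G(n) + G(m) Λ(n) - G(m) G(n)`.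
-/

set_option autoImplicit false

namespace Pool.Agent.Results.MP_73b532_nt.EveryModulusSevenTenths

open Finset
open Pool.Agent.H560R3.GB (sing)
open Pool.Agent.W93.PG (cnt)

open Classical in
/-- The number of the primes `p` with `u < p ≤ v` such that `m - p` is a prime. -/
noncomputable def partitions (m : ℕ) (u v : ℝ) : ℕ :=
  ((range (m + 1)).filter (fun p : ℕ => p.Prime ∧ (m - p).Prime ∧ u < p ∧ (p : ℝ) ≤ v)).card

/-- (1) Every interval `(u, v]` with `√m ≤ u`, `v ≤ m / 2` and `v - u ≥ m / (log m)^W` contains at least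
`(1 / 21) sing m (v - u) / (log m)²` primes `p` with `m - p` prime; (2) there is a prime `p` with
`√m < p ≤ m / 2`, `m - p` prime and `p ≤ √m + m / (log m)^W`. -/
def Holds (W m : ℕ) : Prop :=
  (∀ u v : ℝ, √(m : ℝ) ≤ u → v ≤ (m : ℝ) / 2 → (m : ℝ) / Real.log m ^ W ≤ v - u →
    1 / 21 * (sing m * (v - u) / Real.log m ^ 2) ≤ (partitions m u v : ℝ)) ∧
  ∃ p : ℕ, p.Prime ∧ (m - p).Prime ∧ √(m : ℝ) < p ∧ (p : ℝ) ≤ (m : ℝ) / 2 ∧
    (p : ℝ) ≤ √(m : ℝ) + (m : ℝ) / Real.log m ^ W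

lemma cnt_le (m : ℕ) (u v : ℝ) (hu : 0 ≤ u) (hv : v ≤ m) :
    cnt m ⌊u⌋₊ ⌊v⌋₊ ≤ partitions m u v := by
  classical
  unfold cnt partitions
  apply card_le_card
  intro p hp
  rw [mem_filter, mem_Ioc] at hp
  obtain ⟨⟨h1, h2⟩, h3, h4⟩ := hp
  have h5 : u < p := (Nat.floor_lt hu).1 h1
  have h6 : (p : ℝ) ≤ v := by
    rcases le_or_gt 0 v with h | h
    · exact (Nat.le_floor_iff h).1 h2
    · rw [Nat.floor_of_nonpos h.le] at h2
      omega
  rw [mem_filter, mem_range]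
  refine ⟨?_, h3, h4, h5, h6⟩
  have : (p : ℝ) ≤ m := h6.trans hv
  have : p ≤ m := by exact_mod_cast this
  omega

lemma holds_of (W : ℕ) (hW : 1 ≤ W) : ∃ n₀ : ℕ, ∀ m : ℕ, n₀ ≤ m → 2 ∣ m →
    Pool.Agent.R460.GS.WinL (W + 1) m → Holds W m := by
  obtain ⟨x₀, hx₀⟩ := Filter.eventually_atTop.1
    (Pool.Agent.R460.GS.real_log (W + 1) (s := 1 / 2) (by norm_num) 21)
  refine ⟨⌈x₀⌉₊ + 100, fun m hm _ hwin => ?_⟩
  have hmx : x₀ ≤ (m : ℝ) := (Nat.le_ceil x₀).trans (by exact_mod_cast (by omega : ⌈x₀⌉₊ ≤ m))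
  obtain ⟨hL, hLW⟩ := hx₀ m hmx
  have hm0 : (100 : ℝ) ≤ m := by exact_mod_cast (by omega : 100 ≤ m)
  obtain ⟨L, hLd⟩ : ∃ L, L = Real.log m := ⟨_, rfl⟩
  rw [← hLd] at hL hLW
  have hL0 : 0 < L := by linarith
  have hL1 : 1 ≤ L := by linarith
  have hsq : (m : ℝ) ^ (1 / 2 : ℝ) = √(m : ℝ) := by rw [Real.sqrt_eq_rpow]
  rw [hsq] at hLW
  have hs0 : 0 < √(m : ℝ) := Real.sqrt_pos.2 (by linarith)
  have hss : √(m : ℝ) * √(m : ℝ) = m := Real.mul_self_sqrt (by linarith)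
  have hpW : 0 < L ^ W := by positivity
  have hpW1 : 0 < L ^ (W + 1) := by positivity
  -- the length of the windows is at least `√m`
  have hlen1 : √(m : ℝ) ≤ m / L ^ (W + 1) := by
    rw [le_div_iff₀ hpW1]
    nlinarith
  have hlen2 : L * (m / L ^ (W + 1)) = m / L ^ W := by
    rw [pow_succ]
    field_simp
  have hs10 : 10 ≤ √(m : ℝ) := by
    rw [show (10 : ℝ) = √(100 : ℝ) by
      rw [show (100 : ℝ) = 10 ^ 2 by norm_num, Real.sqrt_sq (by norm_num)]]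
    exact Real.sqrt_le_sqrt hm0
  have hsing := Pool.Agent.R460.GS.one_le_sing m
  have h1 : ∀ u v : ℝ, √(m : ℝ) ≤ u → v ≤ (m : ℝ) / 2 → (m : ℝ) / L ^ W ≤ v - u →
      1 / 21 * (sing m * (v - u) / L ^ 2) ≤ (partitions m u v : ℝ) := by
    intro u v hu hv huv
    have hu0 : 0 ≤ u := hs0.le.trans hu
    have hvu : 21 * √(m : ℝ) ≤ v - u := by
      have : 21 * (m / L ^ (W + 1)) ≤ m / L ^ W := by
        rw [← hlen2]
        exact mul_le_mul_of_nonneg_right hL (by positivity)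
      linarith
    have hv0 : 0 ≤ v := by linarith
    have hvm : v ≤ m := by linarith
    have hf1 : (⌊u⌋₊ : ℝ) ≤ u := Nat.floor_le hu0
    have hf2 : v < ⌊v⌋₊ + 1 := Nat.lt_floor_add_one v
    have hf3 : (⌊v⌋₊ : ℝ) ≤ v := Nat.floor_le hv0
    have hd : v - u - 1 ≤ (⌊v⌋₊ : ℝ) - ⌊u⌋₊ := by linarith
    have hlt : ⌊u⌋₊ < ⌊v⌋₊ := by
      have : (⌊u⌋₊ : ℝ) < ⌊v⌋₊ := by linarith
      exact_mod_cast this
    have hle : ⌊v⌋₊ ≤ m := by
      have : (⌊v⌋₊ : ℝ) ≤ m := by linarith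
      exact_mod_cast this
    have h2 := hwin ⌊u⌋₊ ⌊v⌋₊ hlt hle (by
      rw [← hLd]
      refine le_trans ?_ hd
      have h3 : 2 * (m / L ^ (W + 1)) ≤ m / L ^ W := by
        rw [← hlen2]
        exact mul_le_mul_of_nonneg_right (by linarith) (by positivity)
      linarith)
    rw [← hLd] at h2
    have h3 : (cnt m ⌊u⌋₊ ⌊v⌋₊ : ℝ) ≤ partitions m u v := by exact_mod_cast cnt_le m u v hu0 hvm
    refine le_trans ?_ (h2.trans h3)
    have h4 : 20 / 21 * (v - u) ≤ (⌊v⌋₊ : ℝ) - ⌊u⌋₊ := by linarith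
    have h5 : 0 < L ^ 2 := by positivity
    rw [mul_div_assoc', mul_div_assoc', div_le_div_iff_of_pos_right h5]
    nlinarith
  refine ⟨by rw [← hLd]; exact h1, ?_⟩
  rw [← hLd]
  -- the first window after the square root
  have hWlen : m / L ^ W ≤ m / 21 := by
    apply div_le_div_of_nonneg_left (by linarith) (by norm_num)
    calc (21 : ℝ) ≤ L := hL
      _ = L ^ 1 := (pow_one L).symm
      _ ≤ L ^ W := pow_le_pow_right₀ hL1 hW
  have hsm : √(m : ℝ) ≤ m / 10 := by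
    rw [le_div_iff₀ (by norm_num)]
    nlinarith
  have h2 := h1 (√(m : ℝ)) (√(m : ℝ) + m / L ^ W) le_rfl (by linarith) (by linarith)
  have h3 : 0 < (partitions m (√(m : ℝ)) (√(m : ℝ) + m / L ^ W) : ℝ) := by
    refine lt_of_lt_of_le ?_ h2
    have : 0 < √(m : ℝ) + m / L ^ W - √(m : ℝ) := by
      have : 0 < (m : ℝ) / L ^ W := by positivity
      linarith
    positivity
  have h4 : 0 < partitions m (√(m : ℝ)) (√(m : ℝ) + m / L ^ W) := by exact_mod_cast h3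
  unfold partitions at h4
  rw [card_pos] at h4
  obtain ⟨p, hp⟩ := h4
  rw [mem_filter] at hp
  obtain ⟨_, hp1, hp2, hp3, hp4⟩ := hp
  exact ⟨p, hp1, hp2, hp3, by linarith, hp4⟩

/-- For all `ρ > 0`, `A`, `T` and `W ≥ 1` and all sufficiently large real `x`: for EVERY integer
`1 ≤ q ≤ x ^ (7 / 10 - ρ)` and every integer `a` with `gcd(a, q) ≤ (log x)^T`, all but at most
`x / (q (log x)^A)` of the even integers `0 < m ≤ x`, `m ≡ a (mod q)`, satisfy `Holds W m`. -/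
theorem result (ρ : ℝ) (hρ : 0 < ρ) (A T W : ℕ) (hW : 1 ≤ W) :
    ∃ x₀ : ℝ, ∀ x : ℝ, x₀ ≤ x → ∀ q : ℕ, 1 ≤ q → (q : ℝ) ≤ x ^ (7 / 10 - ρ) →
      ∀ a : ℤ, (Int.gcd a q : ℝ) ≤ Real.log x ^ T →
        ({m : ℕ | 0 < m ∧ (m : ℝ) ≤ x ∧ 2 ∣ m ∧ (m : ℤ) ≡ a [ZMOD q] ∧ ¬ Holds W m}).Finite ∧
        (({m : ℕ | 0 < m ∧ (m : ℝ) ≤ x ∧ 2 ∣ m ∧ (m : ℤ) ≡ a [ZMOD q] ∧ ¬ Holds W m}.ncard : ℕ) : ℝ) ≤
          x / (q * Real.log x ^ A) :=
  Pool.Agent.R460.GS.class_few (Holds W) (W + 1) (holds_of W hW) ρ hρ A T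

end Pool.Agent.Results.MP_73b532_nt.EveryModulusSevenTenths
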