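import Pool.Agent.R459.Fams
import Pool.Agent.R459.C2

/-!
# The Goldbach–Knjzek conjecture, in all long windows, for all even integers near almost all rearrangements of digits,
palindromes and quadratic values at integers with restricted digits

Definitions used:
* in `Pool.Agent.H560R3.GB`: `C₂`: the twin prime constant `∏_{p > 2} (1 - 1 / (p - 1) ^ 2)`; `sing m`: the singular
  series `2 C₂ ∏_{p ∣ m, p > 2} (p - 1) / (p - 2)`;
* in `Pool.Agent.R459.Fams`: `Digits b k U κ c η P`: almost all the integers `c + κ v` have the property `P`, up to a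
  proportion of at most `1 / k ^ U`, if `v` runs through the rearrangements of `k` given digits in base `b` (none of
  them at more than `(1 - η) k` places), or through the palindromes with `k` digits, or is random with independent
  pairs of mirror digits; `Quadratics b k U κ β c P`: for arbitrary sets `D i` of at least two digits, almost all the
  integers `c + κ m ^ 2 + β m` have the property `P`, up to a proportion of `1 / k ^ U`, if `m` runs through the integers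
  below `b ^ k` whose `i`-th digit lies in `D i` for all `i < k`.
-/

set_option autoImplicit false

namespace Pool.Agent.Results.MP_73b532_nt.NearDigitFamilies

open Finset Pool.Agent.H560R3.GB Pool.Agent.R459.Fams

open Classical in
/-- The number of the primes `p` in the window `(y₁, y₂]` with `√(2 n) < p ≤ n` for which `2 n - p` is a prime. -/
noncomputable def K (n y₁ y₂ : ℕ) : ℕ :=
  ((Ioc y₁ y₂).filter (fun p : ℕ => p.Prime ∧ (2 * n - p).Prime ∧ √((2 * n : ℕ) : ℝ) < p ∧ p ≤ n)).card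

/-- For all windows `(y₁, y₂] ⊆ (0, n]` of length at least `n / log ^ A n` there is a prime `p` with
`√(2 n) < p ≤ n` and `y₁ < p ≤ y₂` for which `2 n - p` is a prime, and the number of these primes is
`sing (2 n) * (y₂ - y₁) / log ^ 2 (2 n)` up to a relative error of at most `ε`. -/
def Holds (ε : ℝ) (A n : ℕ) : Prop :=
  ∀ y₁ y₂ : ℕ, y₁ < y₂ → y₂ ≤ n → (n : ℝ) / Real.log n ^ A ≤ (y₂ : ℝ) - y₁ →
    (∃ p : ℕ, p.Prime ∧ (2 * n - p).Prime ∧ √((2 * n : ℕ) : ℝ) < p ∧ p ≤ n ∧ y₁ < p ∧ p ≤ y₂) ∧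
    |(K n y₁ y₂ : ℝ) - sing (2 * n) * (((y₂ : ℝ) - y₁) / Real.log (2 * n : ℕ) ^ 2)| ≤
      ε * (sing (2 * n) * (((y₂ : ℝ) - y₁) / Real.log (2 * n : ℕ) ^ 2))

/-- `Holds` for all the even integers `2 n > 0` at a distance of at most `Q` from `v`. -/
def Near (ε : ℝ) (A Q : ℕ) (v : ℤ) : Prop := ∀ n : ℕ, 0 < n → |((2 * n : ℕ) : ℤ) - v| ≤ Q → Holds ε A n

lemma K_le (n y₁ y₂ : ℕ) : K n y₁ y₂ ≤ Pool.Agent.W93.PG.cnt (2 * n) y₁ y₂ := by
  classical
  unfold K Pool.Agent.W93.PG.cnt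
  apply card_le_card
  intro p hp
  rw [mem_filter] at hp ⊢
  exact ⟨hp.1, hp.2.1, hp.2.2.1⟩

lemma K_ge (n y₁ y₂ : ℕ) (hy : y₂ ≤ n) :
    (Pool.Agent.W93.PG.cnt (2 * n) y₁ y₂ : ℝ) ≤ K n y₁ y₂ + (√((2 * n : ℕ) : ℝ) + 2) := by
  classical
  have h1 : (Ioc y₁ y₂).filter (fun p => p.Prime ∧ (2 * n - p).Prime) ⊆
      (Ioc y₁ y₂).filter (fun p : ℕ => p.Prime ∧ (2 * n - p).Prime ∧ √((2 * n : ℕ) : ℝ) < p ∧ p ≤ n) ∪
      range (⌊√((2 * n : ℕ) : ℝ)⌋₊ + 1) := by
    intro p hp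
    rw [mem_filter, mem_Ioc] at hp
    rw [mem_union, mem_filter, mem_Ioc, mem_range]
    obtain ⟨⟨a1, a2⟩, a3, a4⟩ := hp
    by_cases h2 : √((2 * n : ℕ) : ℝ) < p
    · exact Or.inl ⟨⟨a1, a2⟩, a3, a4, h2, a2.trans hy⟩
    · right
      rw [Nat.lt_succ_iff]
      exact Nat.le_floor (not_lt.1 h2)
  have h3 := (card_le_card h1).trans (card_union_le _ _)
  rw [card_range] at h3
  have h4 : (Pool.Agent.W93.PG.cnt (2 * n) y₁ y₂ : ℝ) ≤ K n y₁ y₂ + ((⌊√((2 * n : ℕ) : ℝ)⌋₊ : ℝ) + 1) := by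
    unfold Pool.Agent.W93.PG.cnt K
    exact_mod_cast h3
  have h5 := Nat.floor_le (Real.sqrt_nonneg ((2 * n : ℕ) : ℝ))
  linarith

lemma holds_of (A : ℕ) (ε : ℝ) (hε : 0 < ε) : ∃ m₀ : ℕ, ∀ n : ℕ, m₀ ≤ 2 * n →
    Pool.Agent.W93.PG.WinP (min ε (1 / 2) / 2) (A + 1) (2 * n) → Holds ε A n := by
  obtain ⟨ε', hε'⟩ : ∃ ε', ε' = min ε (1 / 2) := ⟨_, rfl⟩
  have he0 : 0 < ε' := by rw [hε']; exact lt_min hε (by norm_num)
  have he1 : ε' ≤ ε := by rw [hε']; exact min_le_left _ _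
  have he2 : ε' ≤ 1 / 2 := by rw [hε']; exact min_le_right _ _
  obtain ⟨n1, h1⟩ := Pool.Agent.H373R2.T7.ev_L' 3
  obtain ⟨n2, h2⟩ := Pool.Agent.H373R2.T7.ev_log' (A + 2) (10 / ε')
  rw [← hε']
  refine ⟨n1 + n2 + 6, fun n hn hw => ?_⟩
  have hL := h1 (2 * n) (by omega)
  have hc := h2 (2 * n) (by omega)
  intro y₁ y₂ hy hyn hl
  have hn3 : (3 : ℝ) ≤ n := by exact_mod_cast (by omega : 3 ≤ n)
  obtain ⟨L, hLd⟩ : ∃ L, L = Real.log ((2 * n : ℕ) : ℝ) := ⟨_, rfl⟩
  obtain ⟨R, hR⟩ : ∃ R, R = √((2 * n : ℕ) : ℝ) := ⟨_, rfl⟩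
  have hR2 : R * R = 2 * n := by
    rw [hR, Real.mul_self_sqrt (Nat.cast_nonneg _)]
    push_cast
    ring
  have hR1 : 1 ≤ R := by
    rw [hR]
    apply Real.one_le_sqrt.2
    push_cast
    linarith
  rw [← hLd] at hL hc
  rw [← hR] at hc
  have hlog0 : 1 ≤ Real.log (n : ℝ) := by
    rw [Real.le_log_iff_exp_le (by linarith)]
    linarith [Real.exp_one_lt_d9]
  have hlogL : Real.log (n : ℝ) ≤ L := by
    rw [hLd]
    exact Real.log_le_log (by linarith) (by exact_mod_cast (by omega : n ≤ 2 * n))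
  have hyr : (y₁ : ℝ) < y₂ := by exact_mod_cast hy
  obtain ⟨D, hD⟩ : ∃ D : ℝ, D = (y₂ : ℝ) - y₁ := ⟨_, rfl⟩
  have hD1 : n / L ^ A ≤ D := by
    rw [hD]
    refine le_trans ?_ hl
    apply div_le_div_of_nonneg_left (by linarith) (by positivity)
    exact pow_le_pow_left₀ (by linarith) hlogL _
  have hwin := hw y₁ y₂ hy (by omega) (by
    rw [← hLd, ← hD]
    refine le_trans ?_ hD1
    have e : ((2 * n : ℕ) : ℝ) = 2 * n := by push_cast; ring
    rw [e, pow_succ, div_le_div_iff₀ (by positivity) (by positivity)]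
    have : 0 ≤ (n : ℝ) * L ^ A := by positivity
    nlinarith)
  rw [← hLd, ← hD] at hwin
  obtain ⟨M, hM⟩ : ∃ M : ℝ, M = sing (2 * n) * (D / L ^ 2) := ⟨_, rfl⟩
  have e1 : sing (2 * n) * D / L ^ 2 = M := by rw [hM]; ring
  rw [e1] at hwin
  rw [← hLd, ← hD, ← hM]
  have hs := Pool.Agent.R459.sing_num (2 * n)
  have hD0 : 0 < D := by rw [hD]; linarith
  have hQ0 : 0 < D / L ^ 2 := by positivity
  have hM1 : 327 / 250 * (D / L ^ 2) ≤ M := by
    rw [hM]
    exact mul_le_mul_of_nonneg_right hs hQ0.le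
  have hbig : R + 2 ≤ ε' / 2 * M := by
    have h3 : n / L ^ (A + 2) ≤ D / L ^ 2 := by
      rw [pow_add, ← div_div]
      exact div_le_div_of_nonneg_right hD1 (by positivity)
    have h4 : 10 / ε' * L ^ (A + 2) ≤ R := hc
    have h5 : 5 * R ≤ ε' * (n / L ^ (A + 2)) := by
      rw [mul_div_assoc', le_div_iff₀ (by positivity)]
      have h6 : 10 * L ^ (A + 2) ≤ ε' * R := by
        have h7 : ε' * (10 / ε' * L ^ (A + 2)) ≤ ε' * R := mul_le_mul_of_nonneg_left h4 he0.le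
        have h8 : ε' * (10 / ε' * L ^ (A + 2)) = 10 * L ^ (A + 2) := by field_simp
        rw [← h8]
        exact h7
      have h9 : R * (10 * L ^ (A + 2)) ≤ R * (ε' * R) := mul_le_mul_of_nonneg_left h6 (by linarith)
      have h10 : R * (ε' * R) = ε' * (2 * n) := by rw [← hR2]; ring
      nlinarith
    have h11 : ε' * (n / L ^ (A + 2)) ≤ ε' * (D / L ^ 2) := mul_le_mul_of_nonneg_left h3 he0.le
    have h12 : ε' * (327 / 250 * (D / L ^ 2)) ≤ ε' * M := mul_le_mul_of_nonneg_left hM1 he0.le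
    nlinarith
  have hK1 : (K n y₁ y₂ : ℝ) ≤ Pool.Agent.W93.PG.cnt (2 * n) y₁ y₂ := by exact_mod_cast K_le n y₁ y₂
  have hK2 := K_ge n y₁ y₂ hyn
  rw [← hR] at hK2
  have hM0 : 0 < M := by linarith [mul_pos (by norm_num : (0 : ℝ) < 327 / 250) hQ0]
  have hfin : |(K n y₁ y₂ : ℝ) - M| ≤ ε' * M := by
    rw [abs_le] at hwin ⊢
    constructor <;> linarith [hwin.1, hwin.2]
  refine ⟨?_, hfin.trans (mul_le_mul_of_nonneg_right he1 hM0.le)⟩
  have hpos : 0 < K n y₁ y₂ := by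
    have h3 := (abs_le.1 hfin).1
    have h4 : (0 : ℝ) < K n y₁ y₂ := by nlinarith
    exact_mod_cast h4
  classical
  unfold K at hpos
  obtain ⟨p, hp⟩ := card_pos.1 hpos
  rw [mem_filter, mem_Ioc] at hp
  exact ⟨p, hp.2.1, hp.2.2.1, hp.2.2.2.1, hp.2.2.2.2, hp.1.1, hp.1.2⟩

/-- Let `b ≥ 2`, `A`, `B`, `W`, `U`, the integers `κ ≠ 0` and `β`, `η > 0` and `ε > 0` be fixed, and let `k` be large.

* Let `|c| ≤ B b ^ k`. For almost all the rearrangements `v` of arbitrary `k` digits, for almost all the palindromes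
  `v` with `k` digits, and with high probability for random integers `v` with independent pairs of mirror digits (the
  proportion of the exceptions is at most `1 / k ^ U`): ALL the even integers `2 n > 0` at a distance of at most
  `k ^ W` from `c + κ v` have the following property. For all windows `(y₁, y₂] ⊆ (0, n]` of length at least
  `n / log ^ A n` there is a prime `p` in the window with `√(2 n) < p ≤ n` for which `2 n - p` is prime, and the number
  of these `p` is as predicted, up to a relative error of at most `ε`.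
* Let `|c| ≤ B b ^ (2 k)`. The same holds for all the even integers at a distance of at most `k ^ W` from
  `c + κ m ^ 2 + β m`, for almost all the integers `m` below `b ^ k` whose `i`-th digit lies in the given set `D i` of
  at least two digits, for all `i < k`. -/
theorem result (b A B W U : ℕ) (hb : 2 ≤ b) (κ β : ℤ) (hκ : κ ≠ 0) (η ε : ℝ) (hη : 0 < η) (hε : 0 < ε) :
    ∃ k₀ : ℕ, ∀ k : ℕ, k₀ ≤ k →
      (∀ c : ℤ, |c| ≤ B * (b : ℤ) ^ k → Digits b k U κ c η (Near ε A (k ^ W))) ∧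
      (∀ c : ℤ, |c| ≤ B * (b : ℤ) ^ (2 * k) → Quadratics b k U κ β c (Near ε A (k ^ W))) := by
  obtain ⟨m₀, hm₀⟩ := holds_of A ε hε
  have hP : ∀ m : ℕ, m₀ ≤ m → 2 ∣ m → Pool.Agent.W93.PG.WinP (min ε (1 / 2) / 2) (A + 1) m → Holds ε A (m / 2) := by
    rintro m hm ⟨n, rfl⟩ hw
    rw [Nat.mul_div_cancel_left _ (by norm_num)]
    exact hm₀ n hm hw
  have hε' : 0 < min ε (1 / 2) / 2 := div_pos (lt_min hε (by norm_num)) (by norm_num)
  obtain ⟨k1, h1⟩ := digits_gold b B (A + 1) W U m₀ hb κ hκ η _ hη hε' (fun m => Holds ε A (m / 2)) hP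
  obtain ⟨k2, h2⟩ := quad_gold b B (A + 1) W U m₀ hb κ β hκ _ hε' (fun m => Holds ε A (m / 2)) hP
  have hN : ∀ (k : ℕ) (v : ℤ), (∀ m : ℕ, 0 < m → Even m → |(m : ℤ) - v| ≤ (k : ℤ) ^ W → Holds ε A (m / 2)) →
      Near ε A (k ^ W) v := by
    intro k v hv n hn hnv
    have h3 := hv (2 * n) (by omega) (even_two_mul n) (by push_cast at hnv ⊢; exact hnv)
    rwa [Nat.mul_div_cancel_left _ (by norm_num)] at h3
  exact ⟨k1 + k2, fun k hk => ⟨fun c hc => (h1 k (by omega) c hc).mono (hN k),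
    fun c hc => (h2 k (by omega) c hc).mono (hN k)⟩⟩

end Pool.Agent.Results.MP_73b532_nt.NearDigitFamilies
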